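import Pool.Agent.H65.HX.SStm

/-!
# Project HX, scheme side: parts UPT, UPB
-/

set_option autoImplicit false
open Classical Finset

namespace Pool.Agent.H64.HX.Sc

open Pool.Agent.H65.HX Pool.Agent.H65.HX.Sc

variable {x : Prm}

theorem hpos (hx : Par x) : (0 : ℝ) < x.h := by
  have := hx.h1
  have : 0 < x.h := by omega
  exact_mod_cast this

theorem L1e (hx : Par x) : (1 : ℝ) ≤ x.L := by
  have h1 := hx.h1
  have h2 := hx.L1
  have : 1 ≤ x.L := by
    rw [h2]
    nlinarith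
  exact_mod_cast this

theorem eta_le (hx : Par x) : x.η ≤ 1 / 10 ^ 6 := by
  have hL := L1e hx
  have hh := hpos hx
  have hh1 : (1 : ℝ) ≤ x.h := by
    have := hx.h1
    have : 1 ≤ x.h := by omega
    exact_mod_cast this
  have h1 := hx.V1
  have h2 := hx.V2
  have hm := hx.m0
  have h3 : 0 ≤ x.n0 * x.μ := by positivity
  have h4 : (1 : ℝ) ≤ (x.L : ℝ) * x.h := by nlinarith
  have h5 : (x.n0 * x.μ) * 1 ≤ (x.n0 * x.μ) * ((x.L : ℝ) * x.h) :=
    mul_le_mul_of_nonneg_left h4 h3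
  have h6 : 10 ^ 12 * (x.n0 * x.μ) ≤ 1 := by
    calc 10 ^ 12 * (x.n0 * x.μ) = 10 ^ 12 * ((x.n0 * x.μ) * 1) := by ring
      _ ≤ 10 ^ 12 * ((x.n0 * x.μ) * ((x.L : ℝ) * x.h)) := by linarith
      _ = 10 ^ 12 * (x.L : ℝ) * x.h * (x.n0 * x.μ) := by ring
      _ ≤ 1 := h1
  have h7 : x.n0 * x.μ ≤ 1 := by linarith
  linarith

/-- the error of the shares is tiny -/
theorem kappa (hx : Par x) :
    2 * (1000 * x.L * x.μ / x.θ) ≤ x.η / (10 ^ 6 * x.L ^ 2) ∧
    2 * (1000 * x.L * x.μ / x.θ) ≤ 1 / 10 ^ 6 ∧ 0 ≤ 1000 * x.L * x.μ / x.θ := by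
  have h1 := hx.u1
  have hL := L1e hx
  have hL0 : (0 : ℝ) < x.L := by linarith
  have ht := hx.t0
  have hm := hx.m0
  have he := hx.n1
  have he1 := eta_le hx
  have key : 2 * (1000 * x.L * x.μ / x.θ) ≤ x.η / (10 ^ 6 * x.L ^ 2) := by
    have e : 2 * (1000 * x.L * x.μ / x.θ) = (2000 * x.L * x.μ) / x.θ := by ring
    rw [e, div_le_div_iff₀ ht (by positivity)]
    have b1 : (x.L : ℝ) ^ 3 ≤ (x.L : ℝ) ^ 4 := pow_le_pow_right₀ hL (by norm_num)
    have b2 : x.μ * (x.L : ℝ) ^ 3 ≤ x.μ * (x.L : ℝ) ^ 4 := mul_le_mul_of_nonneg_left b1 hm.le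
    have b3 : 0 ≤ x.μ * (x.L : ℝ) ^ 4 := by positivity
    have b4 : 2000 * (x.L : ℝ) * x.μ * (10 ^ 6 * (x.L : ℝ) ^ 2) =
        2 * 10 ^ 9 * (x.μ * (x.L : ℝ) ^ 3) := by ring
    rw [b4]
    have b5 : 10 ^ 20 * (x.L : ℝ) ^ 4 * x.μ = 10 ^ 20 * (x.μ * (x.L : ℝ) ^ 4) := by ring
    rw [b5] at h1
    linarith
  refine ⟨key, ?_, by positivity⟩
  refine key.trans ?_
  have hL2 : (1 : ℝ) ≤ (x.L : ℝ) ^ 2 := one_le_pow₀ hL
  rw [div_le_div_iff₀ (by positivity) (by positivity)]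
  nlinarith

theorem rs_bd (hS : S_SHR) (hx : Par x) {P : ℕ} (hP : P < 2 * x.h) {a : ℕ} (ha : a ∈ x.R) :
    1 - 1000 * x.L * x.μ / x.θ ≤ x.rs P a ∧ x.rs P a ≤ 1 + 1000 * x.L * x.μ / x.θ := by
  have := abs_le.1 (hS x hx P hP a ha)
  constructor <;> linarith [this.1, this.2]

theorem rs_pos (hS : S_SHR) (hx : Par x) {P : ℕ} (hP : P < 2 * x.h) {a : ℕ} (ha : a ∈ x.R) :
    0 < x.rs P a := by
  have h1 := (rs_bd hS hx hP ha).1
  have h2 := (kappa hx).2.1
  norm_num at h2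
  linarith

/-- `|y / r - y| ≤ 2 κ y` -/
theorem div_bd {y r k : ℝ} (hy : 0 ≤ y) (hk : 0 ≤ k) (hk2 : k ≤ 1 / 2) (h1 : 1 - k ≤ r)
    (h2 : r ≤ 1 + k) : |y / r - y| ≤ 2 * k * y := by
  have hr : 0 < r := by linarith
  have e : y / r - y = y * ((1 - r) / r) := by
    field_simp
  rw [e, abs_mul, abs_of_nonneg hy, mul_comm]
  apply mul_le_mul_of_nonneg_right _ hy
  rw [abs_div, abs_of_pos hr, div_le_iff₀ hr, abs_le]
  constructor <;> nlinarith

theorem t_UPT (hS : S_SHR) (hR : S_ROW) (hT : S_PAT) : S_UPT := by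
  intro x hx a ha β hβ
  set k := 1000 * x.L * x.μ / x.θ with hk
  obtain ⟨k1, k2, k3⟩ := kappa hx
  rw [← hk] at k1 k2 k3
  have hk2 : k ≤ 1 / 2 := by
    norm_num at k2
    linarith
  have hh := hx.h1
  -- the sum of the numerators
  have hsum : ∑ P ∈ range (2 * x.h), x.wt P (β % x.L) * x.u (x.tp P) a β =
      x.h * x.dem a β / TT x a β := by
    have e1 : ∑ P ∈ range (2 * x.h), x.wt P (β % x.L) * x.u (x.tp P) a β =
        ∑ P ∈ (range (2 * x.h)).filter (fun P => x.tp P = true),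
          x.wt P (β % x.L) * x.u true a β +
        ∑ P ∈ (range (2 * x.h)).filter (fun P => x.tp P = false),
          x.wt P (β % x.L) * x.u false a β := by
      rw [← Finset.sum_filter_add_sum_filter_not (range (2 * x.h)) (fun P => x.tp P = true)]
      congr 1
      · apply Finset.sum_congr rfl
        intro P hP
        rw [(Finset.mem_filter.1 hP).2]
      · apply Finset.sum_congr
        · apply Finset.filter_congr
          intro P _
          simp
        · intro P hP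
          have : x.tp P = false := by
            have := (Finset.mem_filter.1 hP).2
            simpa using this
          rw [this]
    have hw := (hT x hx 0 (by omega)).2.2.2.2.2
    rw [e1, ← Finset.sum_mul, ← Finset.sum_mul, hw true, hw false, ← mul_add]
    have e2 := (hR x hx a ha true).2.2.2.2.1 β hβ
    rw [e2]
    ring
  rw [← hsum, ← Finset.sum_sub_distrib, Finset.mul_sum]
  refine (Finset.abs_sum_le_sum_abs _ _).trans (Finset.sum_le_sum ?_)
  intro P hP
  have hP' := Finset.mem_range.1 hP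
  have hy : 0 ≤ x.wt P (β % x.L) * x.u (x.tp P) a β :=
    mul_nonneg ((hT x hx P hP').1 _).1 ((hR x hx a ha (x.tp P)).1 β)
  have hb := rs_bd hS hx hP' ha
  have h1 := div_bd hy k3 hk2 hb.1 hb.2
  unfold Prm.uP
  exact h1.trans (mul_le_mul_of_nonneg_right k1 hy)

theorem t_UPB (hS : S_SHR) (hR : S_ROW) (hC : S_COL) (hT : S_PAT) : S_UPB := by
  intro x hx P hP
  have hh := hpos hx
  refine ⟨?_, ?_⟩
  · intro a ha
    have hr := rs_pos hS hx hP ha
    refine ⟨?_, ?_, ?_⟩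
    · intro β
      exact div_nonneg (mul_nonneg ((hT x hx P hP).1 _).1 ((hR x hx a ha (x.tp P)).1 β)) hr.le
    · unfold Prm.uP
      rw [← Finset.sum_div]
      exact div_self hr.ne'
    · intro β hne
      have h1 : x.u (x.tp P) a β ≠ 0 := by
        intro h0
        apply hne
        unfold Prm.uP
        rw [h0, mul_zero, zero_div]
      have h2 : x.wt P (β % x.L) ≠ 0 := by
        intro h0
        apply hne
        unfold Prm.uP
        rw [h0, zero_mul, zero_div]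
      obtain ⟨h3, h4, h5⟩ := (hR x hx a ha (x.tp P)).2.2.2.1 β h1
      refine ⟨h3, h4, ?_, h5⟩
      intro hF
      unfold Prm.F at hF
      rw [Finset.mem_filter] at hF
      apply h2
      unfold Prm.wt
      rw [if_pos hF.2]
  · intro β hβ
    obtain ⟨_, k2, k3⟩ := kappa hx
    set k := 1000 * x.L * x.μ / x.θ with hk
    have hk2 : k ≤ 1 / 2 := by
      norm_num at k2
      linarith
    have h1 : ∑ a ∈ x.R, x.uP P a β ≤
        ∑ a ∈ x.R, (1 + 3 / x.h) * (1 + 2 * k) * x.u (x.tp P) a β := by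
      apply Finset.sum_le_sum
      intro a ha
      have hu := (hR x hx a ha (x.tp P)).1 β
      have hb := rs_bd hS hx hP ha
      have h2 := (abs_le.1 (div_bd hu k3 hk2 hb.1 hb.2)).2
      have h3 : x.u (x.tp P) a β / x.rs P a ≤ (1 + 2 * k) * x.u (x.tp P) a β := by linarith
      have hw := (hT x hx P hP).1 (β % x.L)
      unfold Prm.uP
      calc x.wt P (β % x.L) * x.u (x.tp P) a β / x.rs P a
          = x.wt P (β % x.L) * (x.u (x.tp P) a β / x.rs P a) := by ring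
        _ ≤ (1 + 3 / x.h) * ((1 + 2 * k) * x.u (x.tp P) a β) := by
            apply mul_le_mul hw.2 h3 (div_nonneg hu (rs_pos hS hx hP ha).le)
            positivity
        _ = _ := by ring
    rw [← Finset.mul_sum] at h1
    have h2 := hC x hx (x.tp P) β hβ
    have h3 : 3 / (x.h : ℝ) ≤ 3 / 1000 := by
      have : (1000 : ℝ) ≤ x.h := by exact_mod_cast hx.h1
      rw [div_le_div_iff₀ hh (by norm_num)]
      linarith
    have h5 : (1 + 3 / (x.h : ℝ)) * (1 + 2 * k) ≤ (1 + 3 / 1000) * (1 + 1 / 10 ^ 6) := by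
      apply mul_le_mul (by linarith) (by linarith) (by linarith) (by positivity)
    have h6 : (1 + 3 / (x.h : ℝ)) * (1 + 2 * k) * ∑ a ∈ x.R, x.u (x.tp P) a β ≤
        ((1 + 3 / 1000) * (1 + 1 / 10 ^ 6)) * (24 / 25) := by
      have hs : 0 ≤ ∑ a ∈ x.R, x.u (x.tp P) a β :=
        Finset.sum_nonneg fun a ha => (hR x hx a ha (x.tp P)).1 β
      apply mul_le_mul h5 h2 hs (by positivity)
    have h7 : (((1 : ℝ) + 3 / 1000) * (1 + 1 / 10 ^ 6)) * (24 / 25) ≤ 97 / 100 := by norm_num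
    linarith

end Pool.Agent.H64.HX.Sc
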